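import Pool.Agent.Lib.MP_52f1b6_co.FinCase

/-! Triangular colour scheme matrices: every `1 ≤ k ≤ l`, every ground set (finite or infinite). -/

set_option autoImplicit false

universe u

namespace Pool.Agent.Results.MP_52f1b6_co.AnySet

/-- The `k`-element subsets of `X`. -/
abbrev KSub (X : Type u) (k : ℕ) : Type u := {K : Finset X // K.card = k}

/-- The colour scheme of a finite set `Y`: for each colour, the number of `k`-subsets of `Y`
that have it. -/
noncomputable def scheme {X : Type u} {k r : ℕ} (c : KSub X k → Fin r) (Y : Finset X) :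
    Fin r → ℕ :=
  fun i => {K : KSub X k | K.1 ⊆ Y ∧ c K = i}.ncard

/-- The set of colour schemes realised by `l`-element subsets of `X`. -/
def schemes {X : Type u} {k r : ℕ} (c : KSub X k → Fin r) (l : ℕ) : Set (Fin r → ℕ) :=
  {s | ∃ Y : Finset X, Y.card = l ∧ scheme c Y = s}

/-- The colours and all realised schemes can be listed so that the first `r` columns of the
colour scheme matrix form an upper triangular matrix with non-zero diagonal. -/
def Triangularisable {X : Type u} {k r : ℕ} (c : KSub X k → Fin r) (l : ℕ) : Prop :=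
  ∃ (s : ℕ) (h : r ≤ s) (col : Fin r ≃ Fin r) (σ : Fin s ≃ schemes c l), ∀ j : Fin r,
    0 < (σ (Fin.castLE h j)).1 (col j) ∧ ∀ i : Fin r, j < i → (σ (Fin.castLE h j)).1 (col i) = 0

theorem finish {X : Type u} {k r l : ℕ} (c : KSub X k → Fin r)
    (hs : (schemes c l).encard = r) (e : Fin r ≃ Fin r) (τ : Fin r → Finset X)
    (hl : ∀ j, (τ j).card = l) (hz : ∀ i j, j < i → scheme c (τ j) (e i) = 0)
    (hnz : ∀ j, scheme c (τ j) (e j) ≠ 0) : Triangularisable c l := by
  classical
  have hfin : (schemes c l).Finite := Set.finite_of_encard_eq_coe hs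
  have : Fintype (schemes c l) := hfin.fintype
  let f : Fin r → schemes c l := fun j => ⟨scheme c (τ j), τ j, hl j, rfl⟩
  have hinj : Function.Injective f := by
    intro a b hab
    have hab' : scheme c (τ a) = scheme c (τ b) := congrArg Subtype.val hab
    rcases lt_trichotomy a b with h | h | h
    · exact absurd ((congrFun hab' (e b)).symm.trans (hz b a h)) (hnz b)
    · exact h
    · exact absurd ((congrFun hab' (e a)).trans (hz a b h)) (hnz a)
  have hcard : Fintype.card (Fin r) = Fintype.card (schemes c l) := by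
    rw [Set.encard_eq_coe_toFinset_card, Set.toFinset_card] at hs
    rw [Fintype.card_fin]
    exact_mod_cast hs.symm
  have hbij : Function.Bijective f := (Fintype.bijective_iff_injective_and_card f).mpr ⟨hinj, hcard⟩
  refine ⟨r, le_rfl, e, Equiv.ofBijective f hbij, fun j => ⟨Nat.pos_of_ne_zero (hnz j), ?_⟩⟩
  intro i hij
  exact hz i j hij

theorem count_map {X : Type u} {k r n : ℕ} (c : KSub X k → Fin r) (φ : Fin n ↪ X)
    (c' : Finset (Fin n) → Fin r)
    (hc : ∀ (K : Finset (Fin n)) (h : (K.map φ).card = k), c' K = c ⟨K.map φ, h⟩)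
    (L : Finset (Fin n)) (i : Fin r) :
    ((L.powersetCard k).filter (fun K => c' K = i)).card = scheme c (L.map φ) i := by
  classical
  unfold scheme
  rw [← Set.ncard_coe_finset,
    ← Set.ncard_image_of_injective _ (Finset.map_injective φ),
    ← Set.ncard_image_of_injective {K : KSub X k | K.1 ⊆ L.map φ ∧ c K = i} Subtype.val_injective]
  congr 1
  ext K
  simp only [Set.mem_image, Finset.coe_filter, Finset.mem_powersetCard, Set.mem_ofPred_eq]
  constructor
  · rintro ⟨K', ⟨⟨h1, h2⟩, h3⟩, rfl⟩
    have h4 : (K'.map φ).card = k := by rw [Finset.card_map, h2]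
    exact ⟨⟨K'.map φ, h4⟩, ⟨Finset.map_subset_map.mpr h1, by rw [← hc K' h4, h3]⟩, rfl⟩
  · rintro ⟨⟨K', h4⟩, ⟨h1, h3⟩, rfl⟩
    obtain ⟨K'', h5, rfl⟩ := Finset.subset_map_iff.mp h1
    exact ⟨K'', ⟨⟨h5, by rwa [Finset.card_map] at h4⟩, by rw [hc K'' h4, h3]⟩, rfl⟩

theorem result : ∀ k l : ℕ, 0 < k → k ≤ l → ∃ g : ℕ,
    ∀ (r : ℕ) (X : Type u), (g : Cardinal) ≤ Cardinal.mk X →
      ∀ c : KSub X k → Fin r, Function.Surjective c → (schemes c l).encard = r →
        Triangularisable c l := by
  classical
  intro k l _ hkl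
  obtain ⟨g, hg⟩ := Pool.Agent.Lib.MP_52f1b6_co.fin_case
  refine ⟨max (g k l) k, ?_⟩
  intro r X hX c hsurj hs
  choose Kc hKc using hsurj
  rcases hkl.eq_or_lt with rfl | hlt
  · -- `k = l`: the scheme of a `k`-set is the indicator of its colour
    have hset : ∀ (j i : Fin r) (K : KSub X k), K.1 ⊆ (Kc j).1 ∧ c K = i ↔ K = Kc j ∧ j = i := by
      intro j i K
      constructor
      · rintro ⟨h1, h2⟩
        have : K = Kc j :=
          Subtype.ext (Finset.eq_of_subset_of_card_le h1 (by rw [K.2, (Kc j).2]))
        exact ⟨this, by rw [← h2, this, hKc]⟩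
      · rintro ⟨rfl, rfl⟩
        exact ⟨Finset.Subset.refl _, hKc j⟩
    refine finish c hs (Equiv.refl _) (fun j => (Kc j).1) (fun j => (Kc j).2) ?_ ?_
    · intro i j hij
      simp only [scheme, hset]
      simp [hij.ne]
    · intro j
      simp only [scheme, hset]
      simp
  · have hfin : (schemes c l).Finite := Set.finite_of_encard_eq_coe hs
    have : Fintype (schemes c l) := hfin.fintype
    choose Ys hYs using fun s : schemes c l => s.2
    obtain ⟨Z0, hZ0⟩ := Cardinal.exists_finset_eq_card hX
    let Z : Finset X :=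
      Z0 ∪ (Finset.univ.biUnion (fun i => (Kc i).1) ∪ Finset.univ.biUnion Ys)
    have hZ : max (g k l) k ≤ Z.card :=
      hZ0.le.trans (Finset.card_le_card Finset.subset_union_left)
    let φ : Fin Z.card ↪ X := Z.equivFin.symm.toEmbedding.trans (Function.Embedding.subtype _)
    have hφ : Finset.univ.map φ = Z := by
      ext x
      simp only [Finset.mem_map, Finset.mem_univ, true_and]
      constructor
      · rintro ⟨a, rfl⟩
        exact (Z.equivFin.symm a).2
      · intro hx
        exact ⟨Z.equivFin ⟨x, hx⟩, by simp [φ]⟩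
    have hpull : ∀ A : Finset X, A ⊆ Z → ∃ B : Finset (Fin Z.card), A = B.map φ := by
      intro A hA
      rw [← hφ] at hA
      obtain ⟨B, _, hB⟩ := Finset.subset_map_iff.mp hA
      exact ⟨B, hB⟩
    obtain ⟨K0, _, hK0⟩ := Finset.exists_subset_card_eq (s := Z) ((le_max_right _ _).trans hZ)
    let c' : Finset (Fin Z.card) → Fin r := fun K =>
      if h : (K.map φ).card = k then c ⟨K.map φ, h⟩ else c ⟨K0, hK0⟩
    have hc : ∀ (K : Finset (Fin Z.card)) (h : (K.map φ).card = k), c' K = c ⟨K.map φ, h⟩ :=
      fun K h => dif_pos h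
    have hcount := count_map c φ c' hc
    obtain ⟨e, τ, h1, _, h3, h4⟩ := hg k l hlt Z.card r ((le_max_left _ _).trans hZ) c' (by
        intro i
        obtain ⟨B, hB⟩ := hpull (Kc i).1 (fun x hx => Finset.mem_union_right _
          (Finset.mem_union_left _ (Finset.mem_biUnion.mpr ⟨i, Finset.mem_univ _, hx⟩)))
        have hBc : (B.map φ).card = k := hB ▸ (Kc i).2
        refine ⟨B, by rwa [Finset.card_map] at hBc, ?_⟩
        rw [hc B hBc, ← hKc i]
        exact congrArg c (Subtype.ext hB.symm)) (by
        have hEq : (((Finset.univ : Finset (Finset (Fin Z.card))).filter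
            (fun L => L.card = l)).image (fun L => fun i : Fin r =>
              ((L.powersetCard k).filter (fun K => c' K = i)).card) : Set (Fin r → ℕ)) =
            schemes c l := by
          ext s
          simp only [Finset.coe_image, Finset.coe_filter, Finset.mem_univ, true_and,
            Set.mem_image, Set.mem_ofPred_eq]
          constructor
          · rintro ⟨L, hL, rfl⟩
            exact ⟨L.map φ, by rw [Finset.card_map, hL], funext fun i => (hcount L i).symm⟩
          · intro hs'
            obtain ⟨B, hB⟩ := hpull (Ys ⟨s, hs'⟩) (fun x hx => Finset.mem_union_right _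
              (Finset.mem_union_right _
                (Finset.mem_biUnion.mpr ⟨⟨s, hs'⟩, Finset.mem_univ _, hx⟩)))
            obtain ⟨a1, a2⟩ := hYs ⟨s, hs'⟩
            rw [hB] at a1 a2
            exact ⟨B, by rwa [Finset.card_map] at a1,
              (funext fun i => hcount B i).trans a2⟩
        rw [← hEq, Set.encard_coe_eq_coe_finsetCard] at hs
        exact_mod_cast hs)
    refine finish c hs e (fun j => (τ j).map φ) (fun j => by rw [Finset.card_map, h1]) ?_ ?_
    · intro i j hij
      rw [← hcount]
      exact h3 i j hij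
    · intro j
      rw [← hcount]
      exact h4 j

end Pool.Agent.Results.MP_52f1b6_co.AnySet
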